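import Mathlib

namespace Pool.Agent.Results.MP_a5410e_nt.TranslationCollisions

open Polynomial

/-- The map `f_l : x ↦ f(x) + l` on an algebraic closure of `L`. -/
noncomputable def shift {L : Type*} [Field L] (f : (AlgebraicClosure L)[X]) (l : AlgebraicClosure L) :
    AlgebraicClosure L → AlgebraicClosure L :=
  fun x => f.eval x + l

/-- The set `C_f(α₁, α₂; β)` of all `l` in an algebraic closure of `L` such that
`f_l^m(α₁) = β = f_l^n(α₂)` for some `m, n ≥ 1`. -/
def collisionSet {L : Type*} [Field L] (f : (AlgebraicClosure L)[X]) (α₁ α₂ β : L) :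
    Set (AlgebraicClosure L) :=
  {l | ∃ m n : ℕ, 1 ≤ m ∧ 1 ≤ n ∧
    (shift f l)^[m] (algebraMap L (AlgebraicClosure L) α₁) = algebraMap L (AlgebraicClosure L) β ∧
    (shift f l)^[n] (algebraMap L (AlgebraicClosure L) α₂) = algebraMap L (AlgebraicClosure L) β}

/-- The data `(L, f, α₁, α₂, β)` satisfy all hypotheses of Q1 (`f` has coefficients in the
algebraic closure of `F_p` inside that of `L`, degree at least two, is not additive, and
`α₁, α₂, β` are not all algebraic over `F_p`), the set `C_f(α₁, α₂; β)` is infinite, and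
nevertheless `f(α₁) ≠ f(α₂)`. -/
structure IsCounterexample (p : ℕ) [Fact p.Prime] (L : Type*) [Field L] [Algebra (ZMod p) L]
    (f : (AlgebraicClosure L)[X]) (α₁ α₂ β : L) : Prop where
  coeff_algebraic : ∀ n, IsAlgebraic (ZMod p) (f.coeff n)
  two_le_degree : 2 ≤ f.natDegree
  not_additive : ¬ ∀ x y : AlgebraicClosure L, f.eval (x + y) = f.eval x + f.eval y
  not_all_algebraic :
    ¬ (IsAlgebraic (ZMod p) α₁ ∧ IsAlgebraic (ZMod p) α₂ ∧ IsAlgebraic (ZMod p) β)
  infinite : (collisionSet f α₁ α₂ β).Infinite
  eval_ne : f.eval (algebraMap L (AlgebraicClosure L) α₁) ≠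
    f.eval (algebraMap L (AlgebraicClosure L) α₂)

/-- The polynomial `(x^p - x)^(p+1) + x`. -/
noncomputable def poly (p : ℕ) (R : Type*) [CommRing R] : R[X] :=
  (X ^ p - X) ^ (p + 1) + X

section aux

variable {p : ℕ} [Fact p.Prime] {L : Type*} [Field L] [Algebra (ZMod p) L]

lemma charP_closure (p : ℕ) [Fact p.Prime] (L : Type*) [Field L] [Algebra (ZMod p) L] :
    CharP (AlgebraicClosure L) p :=
  charP_of_injective_algebraMap (algebraMap (ZMod p) (AlgebraicClosure L)).injective p

lemma eval_poly (x : AlgebraicClosure L) :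
    (poly p (AlgebraicClosure L)).eval x = (x ^ p - x) ^ (p + 1) + x := by
  simp [poly]

lemma eval_add_one (x : AlgebraicClosure L) :
    (poly p (AlgebraicClosure L)).eval (x + 1) = (poly p (AlgebraicClosure L)).eval x + 1 := by
  have := charP_closure p L
  rw [eval_poly, eval_poly, add_pow_char (p := p), one_pow]
  ring

lemma iter_add_nat (l x : AlgebraicClosure L) (m j : ℕ) :
    (shift (poly p (AlgebraicClosure L)) l)^[m] (x + j) =
      (shift (poly p (AlgebraicClosure L)) l)^[m] x + j := by
  have one : ∀ y : AlgebraicClosure L, shift (poly p (AlgebraicClosure L)) l (y + 1) =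
      shift (poly p (AlgebraicClosure L)) l y + 1 := by
    intro y
    simp only [shift, eval_add_one]
    ring
  have step : ∀ (m : ℕ) (y : AlgebraicClosure L),
      (shift (poly p (AlgebraicClosure L)) l)^[m] (y + 1) =
      (shift (poly p (AlgebraicClosure L)) l)^[m] y + 1 := by
    intro m
    induction m with
    | zero => intro y; rfl
    | succ m ih =>
      intro y
      rw [Function.iterate_succ_apply, Function.iterate_succ_apply, one, ih]
  induction j with
  | zero => simp
  | succ j ih =>
    push_cast
    rw [← add_assoc, step, ih, add_assoc]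

lemma iter_mul {l b : AlgebraicClosure L} {r : ℕ}
    (h : (shift (poly p (AlgebraicClosure L)) l)^[r] b = b + 1) (j : ℕ) :
    (shift (poly p (AlgebraicClosure L)) l)^[j * r] b = b + j := by
  induction j with
  | zero => simp
  | succ j ih =>
    rw [Nat.succ_mul, Nat.add_comm, Function.iterate_add_apply, ih, iter_add_nat, h]
    push_cast
    ring

lemma iter_mul_p {l b : AlgebraicClosure L} {r : ℕ}
    (h : (shift (poly p (AlgebraicClosure L)) l)^[r] b = b + 1) (j : ℕ) :
    (shift (poly p (AlgebraicClosure L)) l)^[(j * p) * r] b = b := by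
  have := charP_closure p L
  rw [iter_mul h]
  push_cast
  rw [CharP.cast_eq_zero (AlgebraicClosure L) p]
  simp

lemma natDegree_poly (p : ℕ) [Fact p.Prime] (K : Type*) [Field K] :
    (poly p K).natDegree = p * (p + 1) := by
  have hp : 1 < p := (Fact.out : p.Prime).one_lt
  have h1 : (X ^ p - X : K[X]).natDegree = p := FiniteField.X_pow_card_sub_X_natDegree_eq K hp
  have h2 : ((X ^ p - X : K[X]) ^ (p + 1)).natDegree = p * (p + 1) := by
    rw [natDegree_pow, h1, Nat.mul_comm]
  unfold poly
  rw [natDegree_add_eq_left_of_natDegree_lt, h2]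
  rw [h2, natDegree_X]
  nlinarith

/-- iterates as polynomials in the parameter -/
noncomputable def iterPoly (f : (AlgebraicClosure L)[X]) (b : AlgebraicClosure L) :
    ℕ → (AlgebraicClosure L)[X]
  | 0 => C b
  | n + 1 => f.comp (iterPoly f b n) + X

lemma eval_iterPoly (f : (AlgebraicClosure L)[X]) (b l : AlgebraicClosure L) (n : ℕ) :
    (iterPoly f b n).eval l = (shift f l)^[n] b := by
  induction n with
  | zero => simp [iterPoly]
  | succ n ih =>
    rw [Function.iterate_succ_apply', ← ih]
    simp [iterPoly, shift, eval_comp]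

lemma natDegree_iterPoly (f : (AlgebraicClosure L)[X]) (hf : 2 ≤ f.natDegree)
    (b : AlgebraicClosure L) (n : ℕ) : 1 ≤ (iterPoly f b (n + 1)).natDegree := by
  induction n with
  | zero =>
    have : iterPoly f b (0 + 1) = C (f.eval b) + X := by
      simp [iterPoly, comp_C]
    rw [this, add_comm, natDegree_X_add_C]
  | succ n ih =>
    have h2 : (f.comp (iterPoly f b (n + 1))).natDegree =
        f.natDegree * (iterPoly f b (n + 1)).natDegree := natDegree_comp
    have h3 : iterPoly f b (n + 1 + 1) = f.comp (iterPoly f b (n + 1)) + X := rfl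
    have h4 : 2 ≤ (f.comp (iterPoly f b (n + 1))).natDegree := by
      rw [h2]; nlinarith
    rw [h3, natDegree_add_eq_left_of_natDegree_lt (by rw [natDegree_X]; omega)]
    omega

lemma exists_param (f : (AlgebraicClosure L)[X]) (hf : 2 ≤ f.natDegree)
    (b c : AlgebraicClosure L) (n : ℕ) (hn : 1 ≤ n) :
    ∃ l : AlgebraicClosure L, (shift f l)^[n] b = c := by
  obtain ⟨m, rfl⟩ : ∃ m, n = m + 1 := ⟨n - 1, by omega⟩
  have hd := natDegree_iterPoly f hf b m
  have hd2 : (iterPoly f b (m + 1) - C c).natDegree = (iterPoly f b (m + 1)).natDegree :=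
    natDegree_sub_C
  have hne : (iterPoly f b (m + 1) - C c).degree ≠ 0 := by
    intro h0
    have := natDegree_eq_of_degree_eq_some (n := 0) h0
    omega
  obtain ⟨l, hl⟩ := IsAlgClosed.exists_root _ hne
  refine ⟨l, ?_⟩
  rw [IsRoot.def, eval_sub, eval_C, eval_iterPoly] at hl
  exact sub_eq_zero.mp hl

lemma infinite_collisionSet (b : L) :
    (collisionSet (poly p (AlgebraicClosure L)) b (b + 1) b).Infinite := by
  have hp : p.Prime := Fact.out
  have hp2 : 2 ≤ p := hp.two_le
  have hdeg : 2 ≤ (poly p (AlgebraicClosure L)).natDegree := by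
    rw [natDegree_poly]; nlinarith
  have hex : ∀ k : ℕ, ∃ l : AlgebraicClosure L,
      (shift (poly p (AlgebraicClosure L)) l)^[p ^ k] (algebraMap L (AlgebraicClosure L) b) =
        algebraMap L (AlgebraicClosure L) b + 1 := fun k =>
    exists_param _ hdeg _ _ _ (Nat.one_le_pow _ _ hp.pos)
  choose F hF using hex
  have key : ∀ k m : ℕ, k < m → F k ≠ F m := by
    intro k m hkm he
    have h1 := hF k
    have h2 := hF m
    rw [← he] at h2
    have h3 : p ^ m = (p ^ (m - k - 1) * p) * p ^ k := by
      rw [← pow_succ, ← pow_add]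
      congr 1
      omega
    rw [h3, iter_mul_p h1] at h2
    have : (1 : AlgebraicClosure L) = 0 := by
      have := h2.symm
      simpa using this
    exact one_ne_zero this
  have hinj : Function.Injective F := by
    intro k m he
    rcases lt_trichotomy k m with h | h | h
    · exact absurd he (key k m h)
    · exact h
    · exact absurd he.symm (key m k h)
  refine Set.infinite_of_injective_forall_mem hinj ?_
  intro k
  have hk1 : 1 ≤ p ^ k := Nat.one_le_pow _ _ hp.pos
  refine ⟨(1 * p) * p ^ k, (p - 1) * p ^ k, ?_, ?_, iter_mul_p (hF k) 1, ?_⟩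
  · nlinarith
  · have : 1 ≤ p - 1 := by omega
    nlinarith
  · have h1 : algebraMap L (AlgebraicClosure L) (b + 1) =
        algebraMap L (AlgebraicClosure L) b + ((1 : ℕ) : AlgebraicClosure L) := by simp
    rw [h1, iter_add_nat, iter_mul (hF k)]
    have := charP_closure p L
    have h2 : ((p - 1 : ℕ) : AlgebraicClosure L) + 1 = 0 := by
      have : ((p - 1 + 1 : ℕ) : AlgebraicClosure L) = 0 := by
        rw [Nat.sub_add_cancel (by omega : 1 ≤ p)]
        exact CharP.cast_eq_zero _ p
      exact_mod_cast this
    rw [add_assoc, Nat.cast_one, h2, add_zero]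

lemma surj (v : AlgebraicClosure L) : ∃ x : AlgebraicClosure L, x ^ p - x = v := by
  have hp : 1 < p := (Fact.out : p.Prime).one_lt
  have h1 : (X ^ p - X : (AlgebraicClosure L)[X]).natDegree = p :=
    FiniteField.X_pow_card_sub_X_natDegree_eq _ hp
  have hne : (X ^ p - X - C v : (AlgebraicClosure L)[X]).degree ≠ 0 := by
    intro h0
    have := natDegree_eq_of_degree_eq_some (n := 0) h0
    rw [natDegree_sub_C, h1] at this
    omega
  obtain ⟨x, hx⟩ := IsAlgClosed.exists_root _ hne
  refine ⟨x, ?_⟩
  simp only [IsRoot.def, eval_sub, eval_pow, eval_X, eval_C] at hx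
  exact sub_eq_zero.mp hx

lemma not_additive :
    ¬ ∀ x y : AlgebraicClosure L, (poly p (AlgebraicClosure L)).eval (x + y) =
      (poly p (AlgebraicClosure L)).eval x + (poly p (AlgebraicClosure L)).eval y := by
  intro h
  have := charP_closure p L
  have hp : p.Prime := Fact.out
  obtain ⟨x, hx⟩ := surj (p := p) (L := L) 1
  have key : ∀ v : AlgebraicClosure L, v + v ^ p = 0 := by
    intro v
    obtain ⟨y, hy⟩ := surj (p := p) (L := L) v
    have h1 := h x y
    rw [eval_poly, eval_poly, eval_poly, add_pow_char (p := p)] at h1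
    have h2 : x ^ p + y ^ p - (x + y) = 1 + v := by
      rw [← hx, ← hy]; ring
    rw [h2, hx, hy, pow_succ (1 + v) p, add_pow_char (p := p), one_pow] at h1
    have h3 : (1 + v ^ p) * (1 + v) + (x + y) - (1 ^ (p + 1) + x + (v ^ (p + 1) + y)) = 0 :=
      sub_eq_zero.mpr h1
    rw [one_pow, pow_succ] at h3
    linear_combination h3
  have hpoly : (X + X ^ p : (AlgebraicClosure L)[X]) = 0 := by
    apply Polynomial.funext
    intro v
    simpa using key v
  have hc : (X + X ^ p : (AlgebraicClosure L)[X]).coeff 1 = 1 := by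
    have : (1 : ℕ) ≠ p := hp.one_lt.ne
    simp [coeff_X_pow, this]
  rw [hpoly] at hc
  simp at hc

lemma coeff_algebraic (n : ℕ) :
    IsAlgebraic (ZMod p) ((poly p (AlgebraicClosure L)).coeff n) := by
  have h : poly p (AlgebraicClosure L) =
      (poly p (ZMod p)).map (algebraMap (ZMod p) (AlgebraicClosure L)) := by
    simp [poly]
  rw [h, coeff_map]
  exact isAlgebraic_algebraMap _

end aux

/-- **Q1 of MP_a5410e_nt is false for every prime `p`.** For the non-additive polynomial
`f = (x^p - x)^(p+1) + x` over `F_p`, every field `L` of characteristic `p` and every `β ∈ L`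
transcendental over `F_p`, the set `C_f(β, β+1; β)` is infinite although `f(β) ≠ f(β+1)`;
and such `L`, `β` exist. -/
theorem result (p : ℕ) [Fact p.Prime] :
    (∀ (L : Type) [Field L] [Algebra (ZMod p) L] (β : L), Transcendental (ZMod p) β →
      IsCounterexample p L (poly p (AlgebraicClosure L)) β (β + 1) β) ∧
    ∃ (L : Type) (_ : Field L) (_ : Algebra (ZMod p) L) (β : L), Transcendental (ZMod p) β := by
  constructor
  · intro L _ _ β hβ
    refine ⟨coeff_algebraic, ?_, not_additive, fun h => hβ h.1, infinite_collisionSet β, ?_⟩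
    · rw [natDegree_poly]
      have := (Fact.out : p.Prime).two_le
      nlinarith
    · rw [map_add, map_one, eval_add_one]
      intro h
      have : (1 : AlgebraicClosure L) = 0 := by
        have := h.symm
        simpa using this
      exact one_ne_zero this
  · refine ⟨RatFunc (ZMod p), inferInstance, inferInstance, RatFunc.X, ?_⟩
    have h := Polynomial.transcendental_X (ZMod p)
    have h2 := (transcendental_algebraMap_iff (R := ZMod p) (S := (ZMod p)[X])
      (A := RatFunc (ZMod p)) (IsFractionRing.injective _ _) (a := X)).mpr h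
    simpa using h2

end Pool.Agent.Results.MP_a5410e_nt.TranslationCollisions
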